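import Pool.Agent.Helper50.GP.St

set_option autoImplicit false

/-!
Project GP, module TGT: the target in the permutations of `ZMod (p^2) × T`.
-/

namespace Pool.Agent.Helper76.GP

open Pool.Agent.Helper50.GP

section general

variable {n : ℕ} {T : Type} [Group T]

/-- multiplication in the fibres -/
private def mu : (ZMod n → T) →* Equiv.Perm (ZMod n × T) where
  toFun f :=
    { toFun := fun x => (x.1, f x.1 * x.2)
      invFun := fun x => (x.1, (f x.1)⁻¹ * x.2)
      left_inv := fun x => by simp
      right_inv := fun x => by simp }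
  map_one' := by
    ext x
    · simp
    · simp
  map_mul' f g := by
    ext x
    · simp
    · simp [mul_assoc]

private theorem mu_apply (f : ZMod n → T) (x : ZMod n × T) : mu f x = (x.1, f x.1 * x.2) := rfl

private theorem mu_injective : Function.Injective (mu : (ZMod n → T) →* Equiv.Perm (ZMod n × T)) := by
  intro f g h
  funext i
  have h1 := congrArg (fun e : Equiv.Perm (ZMod n × T) => (e (i, 1)).2) h
  simpa [mu_apply] using h1

/-- permutations of the base -/
private def si : Equiv.Perm (ZMod n) →* Equiv.Perm (ZMod n × T) where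
  toFun e :=
    { toFun := fun x => (e x.1, x.2)
      invFun := fun x => (e.symm x.1, x.2)
      left_inv := fun x => by simp
      right_inv := fun x => by simp }
  map_one' := by
    ext x
    · simp
    · simp
  map_mul' f g := by
    ext x
    · simp
    · simp

private theorem si_apply (e : Equiv.Perm (ZMod n)) (x : ZMod n × T) :
    (si e : Equiv.Perm (ZMod n × T)) x = (e x.1, x.2) := rfl

private theorem mu_si (f : ZMod n → T) (e : Equiv.Perm (ZMod n)) :
    mu f * si e = si e * mu (fun i => f (e i)) := by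
  ext x
  · simp [mu_apply, si_apply]
  · simp [mu_apply, si_apply]

private theorem conj_mu (f : ZMod n → T) (e : Equiv.Perm (ZMod n)) :
    (si e)⁻¹ * mu f * si e = mu (fun i => f (e i)) := by
  rw [mul_assoc, mu_si, inv_mul_cancel_left]

/-- translations -/
private def tr (a : ZMod n) : Equiv.Perm (ZMod n) := Equiv.addRight a

private theorem tr_apply (a i : ZMod n) : tr a i = i + a := rfl

private theorem tr_mul (a b : ZMod n) : tr a * tr b = tr (a + b) := by
  ext i
  rw [Equiv.Perm.mul_apply, tr_apply, tr_apply, tr_apply, add_assoc, add_comm b a]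

private theorem tr_zero : tr (0 : ZMod n) = 1 := by
  ext i
  rw [tr_apply, add_zero]
  rfl

private theorem tr_inv (a : ZMod n) : (tr a)⁻¹ = tr (-a) := by
  rw [inv_eq_iff_mul_eq_one, tr_mul, add_neg_cancel, tr_zero]

private theorem tr_pow (k : ℕ) : (tr (1 : ZMod n)) ^ k = tr (k : ZMod n) := by
  induction k with
  | zero => simp [tr_zero]
  | succ k ih => rw [pow_succ, ih, tr_mul, Nat.cast_succ]

private theorem tr_zpow (j : ℤ) : (tr (1 : ZMod n)) ^ j = tr (j : ZMod n) := by
  cases j with
  | ofNat k => rw [Int.ofNat_eq_natCast, zpow_natCast, tr_pow, Int.cast_natCast]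
  | negSucc k =>
    rw [zpow_negSucc, tr_pow, tr_inv]
    congr 1
    push_cast
    rfl

private theorem xl_mu (f : ZMod n → T) (j : ℤ) :
    xl (mu f) (si (tr (1 : ZMod n))) j = mu (fun i => f (i + (j : ZMod n))) := by
  unfold xl
  rw [zpow_neg, ← map_zpow, tr_zpow, conj_mu]
  rfl

/-- multiplications by units -/
private def un (u : (ZMod n)ˣ) : Equiv.Perm (ZMod n) := MulAction.toPermHom (ZMod n)ˣ (ZMod n) u

private theorem un_apply (u : (ZMod n)ˣ) (i : ZMod n) : un u i = (u : ZMod n) * i := rfl

private theorem un_pow (u : (ZMod n)ˣ) (k : ℕ) : un u ^ k = un (u ^ k) := by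
  unfold un
  rw [map_pow]

private theorem un_one : un (1 : (ZMod n)ˣ) = 1 := by
  unfold un
  rw [map_one]

private theorem un_inv (u : (ZMod n)ˣ) : (un u)⁻¹ = un u⁻¹ := by
  unfold un
  rw [map_inv]

private theorem un_tr (u : (ZMod n)ˣ) (a : ZMod n) :
    (un u)⁻¹ * tr a * un u = tr (((u⁻¹ : (ZMod n)ˣ) : ZMod n) * a) := by
  rw [un_inv]
  ext i
  rw [Equiv.Perm.mul_apply, Equiv.Perm.mul_apply, tr_apply, tr_apply, un_apply, un_apply, mul_add,
    ← mul_assoc, Units.inv_mul, one_mul]

/-- a word in the letters `mu (f k)` -/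
private theorem lift_mu {ι : Type} (f : ι → ZMod n → T) (w : FreeGroup ι) :
    FreeGroup.lift (fun k => mu (f k)) w = mu (fun i => FreeGroup.lift (fun k => f k i) w) := by
  have h : FreeGroup.lift (fun k => mu (f k)) =
      (mu : (ZMod n → T) →* Equiv.Perm (ZMod n × T)).comp
        (MonoidHom.pi (fun i => FreeGroup.lift (fun k => f k i))) := by
    refine FreeGroup.ext_hom _ _ fun a => ?_
    rw [FreeGroup.lift_apply_of, MonoidHom.comp_apply]
    congr 1
    funext i
    rw [MonoidHom.pi_apply, FreeGroup.lift_apply_of]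
  rw [h, MonoidHom.comp_apply]
  rfl

end general

private theorem pow_split {G : Type} [Group G] {x y : G} (h : Commute x y) {a b k1 k2 : ℕ}
    (hx : x ^ b = 1) (hy : y ^ a = 1) (h1 : a * k1 ≡ 1 [MOD b]) (h2 : b * k2 ≡ 1 [MOD a]) :
    (x ^ k1 * y ^ k2) ^ a = x ∧ (x ^ k1 * y ^ k2) ^ b = y := by
  have hc : Commute (x ^ k1) (y ^ k2) := h.pow_pow k1 k2
  constructor
  · rw [hc.mul_pow, ← pow_mul, ← pow_mul, mul_comm k1 a, mul_comm k2 a, pow_mul y, hy, one_pow,
      mul_one]
    have := pow_eq_pow_of_modEq h1 hx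
    rwa [pow_one] at this
  · rw [hc.mul_pow, ← pow_mul, ← pow_mul, mul_comm k1 b, mul_comm k2 b, pow_mul x, hx, one_pow,
      one_mul]
    have := pow_eq_pow_of_modEq h2 hy
    rwa [pow_one] at this

private theorem exists_inverse {a b : ℕ} (h : Nat.Coprime a b) : ∃ k, a * k ≡ 1 [MOD b] := by
  obtain ⟨k, h1, h2⟩ := Nat.chineseRemainder h 0 1
  obtain ⟨l, rfl⟩ := (Nat.modEq_zero_iff_dvd).1 h1
  exact ⟨l, h2⟩

theorem hTGT : StTGT := by
  classical
  intro p q m g e1 e2 _ hPar N ω hN T _ α β hα hβ hgen hW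
  have hp : p.Prime := hPar.pp
  have hp0 : 0 < p := hp.pos
  have : NeZero (p ^ 2) := ⟨(pow_pos hp0 2).ne'⟩
  have hp1 : p ≤ p ^ 2 := by
    rw [sq]
    exact Nat.le_mul_of_pos_left p hp0
  have hpp : p < p ^ 2 := by
    rw [sq]
    have := hp.one_lt
    nlinarith
  -- the number `p` in `ZMod (p^2)`
  have hpz : (p : ZMod (p ^ 2)) ≠ 0 := by
    intro h
    rw [ZMod.natCast_eq_zero_iff] at h
    exact absurd (Nat.le_of_dvd hp0 h) (not_le.2 hpp)
  have hpp0 : (p : ZMod (p ^ 2)) * (p : ZMod (p ^ 2)) = 0 := by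
    have : ((p ^ 2 : ℕ) : ZMod (p ^ 2)) = 0 := by
      rw [ZMod.natCast_eq_zero_iff]
    rw [← this]
    push_cast
    ring
  set F : ZMod (p ^ 2) → T := fun i =>
    if i = 0 then α else if (p : ZMod (p ^ 2)) * i = 0 then β else 1 with hF
  have hF1 : ∀ i : ZMod (p ^ 2), (p : ZMod (p ^ 2)) * i ≠ 0 → F i = 1 := by
    intro i hi
    have h0 : i ≠ 0 := by
      rintro rfl
      exact hi (mul_zero _)
    rw [hF]
    simp only
    rw [if_neg h0, if_neg hi]
  -- the unit
  have hgc : Nat.Coprime g (p ^ 2) := hPar.gp.pow_right 2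
  set u : (ZMod (p ^ 2))ˣ := (ZMod.unitOfCoprime g hgc)⁻¹ with hu
  have hFu : ∀ i, F ((u : ZMod (p ^ 2)) * i) = F i := by
    intro i
    have e1 : (u : ZMod (p ^ 2)) * i = 0 ↔ i = 0 := Units.mul_right_eq_zero u
    have e2 : (p : ZMod (p ^ 2)) * ((u : ZMod (p ^ 2)) * i) = 0 ↔ (p : ZMod (p ^ 2)) * i = 0 := by
      rw [mul_left_comm]
      exact Units.mul_right_eq_zero u
    rw [hF]
    simp only [e1, e2]
  set X : Equiv.Perm (ZMod (p ^ 2) × T) := mu F with hX
  set D : Equiv.Perm (ZMod (p ^ 2) × T) := si (un u) with hD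
  set C : Equiv.Perm (ZMod (p ^ 2) × T) := si (tr 1) with hC
  have hcomm : Commute X D := by
    change X * D = D * X
    rw [hX, hD, mu_si]
    congr 2
    funext i
    rw [un_apply]
    exact hFu i
  have hXb : X ^ (m * q) = 1 := by
    rw [hX, ← map_pow]
    have : F ^ (m * q) = 1 := by
      funext i
      rw [Pi.pow_apply, Pi.one_apply, hF]
      simp only
      split_ifs with h1 h2
      · rw [pow_mul, hα, one_pow]
      · rw [mul_comm, pow_mul, hβ, one_pow]
      · rw [one_pow]
    rw [this, map_one]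
  have hDa : D ^ (p * (p - 1)) = 1 := by
    rw [hD, ← map_pow, un_pow]
    have h1 := ZMod.pow_totient u
    rw [Nat.totient_prime_pow hp (by norm_num : 0 < 2)] at h1
    norm_num at h1
    rw [h1, un_one, map_one]
  obtain ⟨k1, hk1⟩ := exists_inverse hPar.cop
  obtain ⟨k2, hk2⟩ := exists_inverse hPar.cop.symm
  obtain ⟨hwa, hwb⟩ := pow_split hcomm hXb hDa hk1 hk2
  refine ⟨Equiv.Perm (ZMod (p ^ 2) × T), inferInstance, X ^ k1 * D ^ k2, C, ?_, ?_⟩
  · constructor
    · -- r1
      rw [hwb, hD, hC, ← map_inv, ← map_mul, ← map_mul, un_tr, ← map_pow, tr_pow]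
      congr 2
      rw [hu, inv_inv, mul_one, ZMod.coe_unitOfCoprime]
    · -- r2
      rw [hwa]
      have h1 : C⁻¹ * X * C = mu (fun i => F (i + 1)) := by
        rw [hC, hX, conj_mu]
        rfl
      rw [h1, hX, ← map_mul, ← map_mul]
      congr 1
      funext i
      rw [Pi.mul_apply, Pi.mul_apply]
      by_cases h2 : (p : ZMod (p ^ 2)) * i = 0
      · have h3 : (p : ZMod (p ^ 2)) * (i + 1) ≠ 0 := by
          rw [mul_add, h2, zero_add, mul_one]
          exact hpz
        rw [hF1 (i + 1) h3, mul_one, one_mul]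
      · rw [hF1 i h2, mul_one, one_mul]
    · -- r3
      rw [hwa]
      have hl : C ^ (p ^ 2) = 1 := by
        rw [hC, ← map_pow, tr_pow]
        have : ((p ^ 2 : ℕ) : ZMod (p ^ 2)) = 0 := by
          rw [ZMod.natCast_eq_zero_iff]
        rw [this, tr_zero, map_one]
      rw [hl]
      unfold Wd
      symm
      apply List.prod_eq_one
      intro x hx
      rw [List.mem_map] at hx
      obtain ⟨r, hr, rfl⟩ := hx
      rw [List.mem_range] at hr
      have h1 : (fun k : ZMod p => xl X C (N r k : ℤ)) =
          fun k : ZMod p => mu ((fun k i => F (i + ((N r k : ℕ) : ZMod (p ^ 2)))) k) := by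
        funext k
        rw [hX, hC, xl_mu]
        congr 1
        funext i
        rw [Int.cast_natCast]
      rw [h1, lift_mu (fun (k : ZMod p) (i : ZMod (p ^ 2)) => F (i + ((N r k : ℕ) : ZMod (p ^ 2))))]
      have h2 : (fun i : ZMod (p ^ 2) => FreeGroup.lift
          (fun k : ZMod p => F (i + ((N r k : ℕ) : ZMod (p ^ 2)))) (ω r)) = 1 := by
        funext i
        rw [Pi.one_apply]
        have hNk : ∀ k : ZMod p, ((N r k : ℕ) : ZMod (p ^ 2)) =
            (r : ZMod (p ^ 2)) + 1 + (p : ZMod (p ^ 2)) * (k.val : ZMod (p ^ 2)) := by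
          intro k
          rw [(hN r hr k).2]
          push_cast
          ring
        by_cases h3 : (p : ZMod (p ^ 2)) * (i + ((r : ZMod (p ^ 2)) + 1)) = 0
        · -- the fibre
          obtain ⟨z, hz⟩ : ∃ z : ZMod (p ^ 2), z = i + ((r : ZMod (p ^ 2)) + 1) := ⟨_, rfl⟩
          rw [← hz] at h3
          have h4 : p ∣ z.val := by
            have h5 : ((p * z.val : ℕ) : ZMod (p ^ 2)) = 0 := by
              rw [Nat.cast_mul, ZMod.natCast_zmod_val]
              exact h3
            rw [ZMod.natCast_eq_zero_iff] at h5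
            obtain ⟨c, hc⟩ := h5
            refine ⟨c, Nat.eq_of_mul_eq_mul_left hp0 ?_⟩
            rw [hc]
            ring
          obtain ⟨l, hl'⟩ := h4
          have hzl : z = (p : ZMod (p ^ 2)) * (l : ZMod (p ^ 2)) := by
            rw [← ZMod.natCast_zmod_val z, hl']
            push_cast
            ring
          have h6 : (fun k : ZMod p => F (i + ((N r k : ℕ) : ZMod (p ^ 2)))) =
              fun k => if k = -(l : ZMod p) then α else β := by
            funext k
            have e3 : i + ((N r k : ℕ) : ZMod (p ^ 2)) =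
                ((p * (l + k.val) : ℕ) : ZMod (p ^ 2)) := by
              have e4 : i + ((r : ZMod (p ^ 2)) + 1) = (p : ZMod (p ^ 2)) * (l : ZMod (p ^ 2)) :=
                hz.symm.trans hzl
              rw [hNk]
              push_cast
              linear_combination e4
            have e5 : (((p * (l + k.val) : ℕ) : ZMod (p ^ 2)) = 0) ↔ k = -(l : ZMod p) := by
              rw [ZMod.natCast_eq_zero_iff, sq, Nat.mul_dvd_mul_iff_left hp0,
                ← ZMod.natCast_eq_zero_iff]
              push_cast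
              rw [ZMod.natCast_zmod_val, add_comm]
              exact add_eq_zero_iff_eq_neg
            have e6 : (p : ZMod (p ^ 2)) * ((p * (l + k.val) : ℕ) : ZMod (p ^ 2)) = 0 := by
              rw [Nat.cast_mul, ← mul_assoc, hpp0, zero_mul]
            rw [e3, hF]
            simp only [e5, e6, if_true]
          rw [h6]
          exact hW r hr _
        · have h6 : (fun k : ZMod p => F (i + ((N r k : ℕ) : ZMod (p ^ 2)))) = fun _ => 1 := by
            funext k
            apply hF1
            intro h7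
            apply h3
            rw [hNk] at h7
            have h8 : (p : ZMod (p ^ 2)) * (i + ((r : ZMod (p ^ 2)) + 1)) =
                (p : ZMod (p ^ 2)) * (i + ((r : ZMod (p ^ 2)) + 1 +
                  (p : ZMod (p ^ 2)) * (k.val : ZMod (p ^ 2)))) := by
              linear_combination (-(k.val : ZMod (p ^ 2))) * hpp0
            rw [h8]
            exact h7
          rw [h6]
          have h9 : (FreeGroup.lift (fun _ : ZMod p => (1 : T))) = 1 :=
            FreeGroup.ext_hom _ _ fun a => by simp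
          rw [h9]
          rfl
      rw [h2, map_one]
  · -- onto `T`
    rw [hwa]
    have hle : Bs X C ≤ (mu : (ZMod (p ^ 2) → T) →* _).range := by
      unfold Bs
      rw [Subgroup.closure_le]
      rintro x ⟨j, rfl⟩
      rw [hX, hC, xl_mu]
      exact ⟨_, rfl⟩
    let φ : Bs X C →* T := (Pi.evalMonoidHom (fun _ : ZMod (p ^ 2) => T) 0).comp
      ((MonoidHom.ofInjective mu_injective).symm.toMonoidHom.comp (Subgroup.inclusion hle))
    have hφ : ∀ (x : Bs X C) (f : ZMod (p ^ 2) → T), (x : Equiv.Perm (ZMod (p ^ 2) × T)) = mu f →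
        φ x = f 0 := by
      intro x f hx
      have h1 : (MonoidHom.ofInjective mu_injective).symm (Subgroup.inclusion hle x) = f := by
        rw [MulEquiv.symm_apply_eq]
        apply Subtype.ext
        exact hx
      change (Pi.evalMonoidHom (fun _ : ZMod (p ^ 2) => T) 0)
        ((MonoidHom.ofInjective mu_injective).symm (Subgroup.inclusion hle x)) = f 0
      rw [h1]
      rfl
    refine ⟨φ, ?_⟩
    rw [← MonoidHom.range_eq_top, eq_top_iff, ← hgen, Subgroup.closure_le]
    have hmem : ∀ j : ℤ, xl X C j ∈ Bs X C := fun j => Subgroup.subset_closure ⟨j, rfl⟩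
    have hval : ∀ j : ℤ, φ ⟨xl X C j, hmem j⟩ = F (j : ZMod (p ^ 2)) := by
      intro j
      rw [hφ ⟨xl X C j, hmem j⟩ (fun i => F (i + (j : ZMod (p ^ 2)))) (by
        change xl X C j = _
        rw [hX, hC, xl_mu])]
      rw [zero_add]
    intro t ht
    rcases ht with rfl | ht
    · refine ⟨⟨xl X C 0, hmem 0⟩, ?_⟩
      rw [hval, Int.cast_zero, hF]
      simp
    · rw [Set.mem_singleton_iff] at ht
      subst ht
      refine ⟨⟨xl X C (p : ℤ), hmem _⟩, ?_⟩
      rw [hval, Int.cast_natCast, hF]
      simp only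
      rw [if_neg hpz, if_pos hpp0]

end Pool.Agent.Helper76.GP
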